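import Pool.Agent.LPW.StmtsF

/-!
Squad LPW, block F, row FRI (helper15): independent units have full rank at infinity.
-/

set_option autoImplicit false

open Polynomial NumberField Filter Topology
open Pool.Agent.LUB (FullRank sp spr SphStmt SpfStmt BndStmt DepStmt)

namespace Pool.Agent.LPW.H15

/-- `g ↦ g(T, θ)` -/
private noncomputable def ev {S : Type} [CommRing S] (T θ : S) : ℤ[X][X] →+* S :=
  (evalRingHom θ).comp (mapRingHom (eval₂RingHom (Int.castRingHom S) T))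

private theorem ev_apply {S : Type} [CommRing S] (T θ : S) (g : ℤ[X][X]) :
    ev T θ g = (spr g T).eval θ := rfl

private theorem map_ev {S S' : Type} [CommRing S] [CommRing S'] (φ : S →+* S') (T θ : S)
    (g : ℤ[X][X]) : φ (ev T θ g) = ev (φ T) (φ θ) g := by
  have h : φ.comp (ev T θ) = ev (φ T) (φ θ) := by
    refine Polynomial.ringHom_ext' (Polynomial.ringHom_ext' (Subsingleton.elim _ _) ?_) ?_
    · simp [ev]
    · simp [ev]
  exact RingHom.congr_fun h g

private theorem spr_map {S S' : Type} [CommRing S] [CommRing S'] (φ : S →+* S') (T : S)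
    (g : ℤ[X][X]) : (spr g T).map φ = spr g (φ T) := by
  unfold spr
  rw [Polynomial.map_map]
  congr 1
  refine Polynomial.ringHom_ext' (Subsingleton.elim _ _) ?_
  simp

private abbrev BB {Ω : Type} [Field Ω] {n : ℕ} (T : Ω) (θ : Fin n → Ω) : Subalgebra ℤ Ω :=
  Algebra.adjoin ℤ ({T} ∪ Set.range θ)

private def TT {Ω : Type} [Field Ω] {n : ℕ} (T : Ω) (θ : Fin n → Ω) : BB T θ :=
  ⟨T, Algebra.subset_adjoin (by simp)⟩

private def tt {Ω : Type} [Field Ω] {n : ℕ} (T : Ω) (θ : Fin n → Ω) (j : Fin n) : BB T θ :=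
  ⟨θ j, Algebra.subset_adjoin (by simp)⟩

private theorem coe_ev {Ω : Type} [Field Ω] {n : ℕ} (T : Ω) (θ : Fin n → Ω) (j : Fin n)
    (g : ℤ[X][X]) : ((ev (TT T θ) (tt T θ j) g : BB T θ) : Ω) = (spr g T).eval (θ j) :=
  map_ev (BB T θ).val.toRingHom (TT T θ) (tt T θ j) g

private theorem eventually_two : ∀ᶠ t : ℕ in atTop, 0 < Real.log (t : ℝ) := by
  filter_upwards [eventually_ge_atTop 2] with t ht
  exact Real.log_pos (by exact_mod_cast ht)

/-- a bounded sequence converges along an ultrafilter -/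
private theorem ult_lim (𝒰 : Ultrafilter ℕ) (h𝒰 : (𝒰 : Filter ℕ) ≤ atTop) (g : ℕ → ℝ) (A : ℝ)
    (h : ∀ᶠ t : ℕ in atTop, |g t| ≤ A) : ∃ l : ℝ, Tendsto g 𝒰 (𝓝 l) := by
  have h1 : ((𝒰.map g : Ultrafilter ℝ) : Filter ℝ) ≤ 𝓟 (Set.Icc (-A) A) := by
    rw [le_principal_iff]
    refine h𝒰 ?_
    filter_upwards [h] with t ht
    exact abs_le.1 ht
  obtain ⟨l, -, hl⟩ := isCompact_Icc.ultrafilter_le_nhds (𝒰.map g) h1
  exact ⟨l, hl⟩

private theorem zpow_eq {F : Type} [Field F] (y : F) (hy : y ≠ 0) (m : ℤ) :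
    y ^ m = y ^ m.toNat * y⁻¹ ^ (-m).toNat := by
  have h : m = (m.toNat : ℤ) - ((-m).toNat : ℤ) := by omega
  conv_lhs => rw [h]
  rw [zpow_sub₀ hy, zpow_natCast, zpow_natCast, div_eq_mul_inv, inv_pow]

/-- FRI. -/
theorem fri : FriStmt := by
  intro sph spf bnd gro dio Ω _ _ T hT r n f u v b θ hθ hf hfθ huv hind
  by_contra hFR
  have hroot : ∀ j, (spr f T).eval (θ j) = 0 := by
    intro j
    rw [hfθ, eval_prod]
    exact Finset.prod_eq_zero (Finset.mem_univ j) (by simp)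
  have hint : ∀ j, IsIntegral (Algebra.adjoin ℤ {T}) (θ j) := by
    intro j
    refine ⟨spr f ⟨T, Algebra.self_mem_adjoin_singleton ℤ T⟩, hf.map _, ?_⟩
    rw [eval₂_eq_eval_map, spr_map]
    exact hroot j
  choose s hs using fun t : ℕ => sph Ω T hT n θ hint (t : ℤ)
  -- the units
  obtain ⟨y, hyd⟩ : ∃ y : Fin r → Fin n → BB T θ, ∀ i j, y i j = ev (TT T θ) (tt T θ j) (u i) :=
    ⟨_, fun i j => rfl⟩
  obtain ⟨z, hzd⟩ : ∃ z : Fin r → Fin n → BB T θ, ∀ i j, z i j = ev (TT T θ) (tt T θ j) (v i) :=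
    ⟨_, fun i j => rfl⟩
  have hy : ∀ i j, (y i j : Ω) = (spr (u i) T).eval (θ j) := by
    intro i j
    rw [hyd, coe_ev]
  have hz : ∀ i j, (z i j : Ω) = (spr (v i) T).eval (θ j) := by
    intro i j
    rw [hzd, coe_ev]
  have hyzΩ : ∀ i j, (y i j : Ω) * (z i j : Ω) = 1 := by
    intro i j
    rw [hy, hz, ← ev_apply, ← ev_apply, ← map_mul, huv, map_add, map_mul, map_one, ev_apply,
      hroot, zero_mul, add_zero]
  have hyz : ∀ i j, y i j * z i j = 1 := fun i j => Subtype.ext (hyzΩ i j)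
  have hsyz : ∀ (t : ℕ) i j, s t (y i j) * s t (z i j) = 1 := by
    intro t i j
    rw [← map_mul, hyz, map_one]
  have hsy0 : ∀ (t : ℕ) i j, s t (y i j) ≠ 0 := fun t i j => left_ne_zero_of_mul_eq_one (hsyz t i j)
  have hsz0 : ∀ (t : ℕ) i j, s t (z i j) ≠ 0 := fun t i j =>
    right_ne_zero_of_mul_eq_one (hsyz t i j)
  have hsy : ∀ (t : ℕ) i j, s t (y i j) = aeval (s t (tt T θ j)) (sp (u i) t) := by
    intro t i j
    exact (spf Ω T f n θ hfθ (s t) t (hs t)).2 (u i) j (y i j) (hy i j)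
  have hsroot : ∀ (t : ℕ) j, aeval (s t (tt T θ j)) (sp f t) = 0 := by
    intro t j
    have h1 := (spf Ω T f n θ hfθ (s t) t (hs t)).1
    rw [aeval_def, eval₂_eq_eval_map, algebraMap_int_eq, h1, eval_prod]
    refine Finset.prod_eq_zero (Finset.mem_univ j) ?_
    rw [eval_sub, eval_X, eval_C]
    exact sub_self _
  -- the ultrafilter
  let 𝒰 : Ultrafilter ℕ := hyperfilter ℕ
  have h𝒰 : (𝒰 : Filter ℕ) ≤ atTop := Nat.hyperfilter_le_atTop
  have hΛex : ∀ i j, ∃ l : ℝ,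
      Tendsto (fun t : ℕ => Real.log ‖s t (y i j)‖ / Real.log (t : ℝ)) 𝒰 (𝓝 l) := by
    intro i j
    have hne : y i j ≠ 0 := left_ne_zero_of_mul_eq_one (hyz i j)
    obtain ⟨A, t₀, h⟩ := bnd Ω T hT n θ hint (y i j) hne
    refine ult_lim 𝒰 h𝒰 _ A ?_
    filter_upwards [eventually_two, eventually_ge_atTop t₀] with t h1 h2
    have h3 : (t₀ : ℝ) ≤ |((t : ℤ) : ℝ)| := by
      rw [Int.cast_natCast, Nat.abs_cast]
      exact_mod_cast h2
    have h4 := (h t h3 (s t) (hs t)).2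
    rw [Int.cast_natCast, Nat.abs_cast] at h4
    rw [abs_div, abs_of_pos h1, div_le_iff₀ h1]
    exact h4
  choose Λ hΛ using hΛex
  -- all determinants vanish
  have hdet : ∀ π : Fin r → Fin n, (Matrix.of fun i j => Λ i (π j)).det = 0 := by
    intro π
    have hlim : Tendsto (fun t : ℕ => (Matrix.of fun i j =>
        Real.log ‖s t (y i (π j))‖ / Real.log (t : ℝ)).det) 𝒰
        (𝓝 (Matrix.of fun i j => Λ i (π j)).det) := by
      have h1 : Tendsto (fun t : ℕ => (Matrix.of fun i j =>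
          Real.log ‖s t (y i (π j))‖ / Real.log (t : ℝ) : Matrix (Fin r) (Fin r) ℝ)) 𝒰
          (𝓝 (Matrix.of fun i j => Λ i (π j))) :=
        tendsto_pi_nhds.2 fun i => tendsto_pi_nhds.2 fun j => hΛ i (π j)
      exact ((Continuous.matrix_det continuous_id).tendsto _).comp h1
    by_contra hne
    have hc : 0 < |(Matrix.of fun i j => Λ i (π j)).det| / 2 := by
      have := abs_pos.2 hne
      linarith
    set c := |(Matrix.of fun i j => Λ i (π j)).det| / 2 with hcd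
    have hfin : {t : ℤ | ∃ z : Fin r → ℂ, (∀ j, aeval (z j) (sp f t) = 0) ∧
        c * Real.log |(t : ℝ)| ^ r ≤
          |(Matrix.of fun i j => Real.log ‖aeval (z j) (sp (u i) t)‖).det|}.Finite := by
      by_contra h
      exact hFR ⟨c, hc, h⟩
    have hev : ∀ᶠ t : ℕ in atTop, (t : ℤ) ∉ {t : ℤ | ∃ z : Fin r → ℂ,
        (∀ j, aeval (z j) (sp f t) = 0) ∧ c * Real.log |(t : ℝ)| ^ r ≤
          |(Matrix.of fun i j => Real.log ‖aeval (z j) (sp (u i) t)‖).det|} := by
      rw [← Nat.cofinite_eq_atTop]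
      exact (hfin.preimage (Nat.cast_injective (R := ℤ)).injOn).compl_mem_cofinite
    have hev2 : ∀ᶠ t : ℕ in (𝒰 : Filter ℕ), |(Matrix.of fun i j =>
        Real.log ‖s t (y i (π j))‖ / Real.log (t : ℝ)).det| ≤ c := by
      refine h𝒰 ?_
      filter_upwards [hev, eventually_two] with t h1 h2
      by_contra h3
      apply h1
      refine ⟨fun j => s t (tt T θ (π j)), fun j => hsroot t (π j), ?_⟩
      rw [Int.cast_natCast, Nat.abs_cast]
      have e1 : (Matrix.of fun i j => Real.log ‖s t (y i (π j))‖ / Real.log (t : ℝ) :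
          Matrix (Fin r) (Fin r) ℝ) = (Real.log (t : ℝ))⁻¹ •
            Matrix.of fun i j => Real.log ‖aeval (s t (tt T θ (π j))) (sp (u i) t)‖ := by
        ext i j
        rw [Matrix.smul_apply, Matrix.of_apply, Matrix.of_apply, hsy, smul_eq_mul, div_eq_mul_inv,
          mul_comm]
      rw [e1, Matrix.det_smul, Fintype.card_fin, abs_mul, abs_pow, abs_inv, abs_of_pos h2,
        inv_pow, not_le, lt_inv_mul_iff₀ (pow_pos h2 r)] at h3
      rw [mul_comm]
      exact h3.le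
    have hle := le_of_tendsto hlim.abs hev2
    have := abs_pos.2 hne
    rw [hcd] at hle
    linarith
  -- the small combination
  have hδ : (0 : ℝ) < 1 / (2 * n + 2) := by positivity
  set δ : ℝ := 1 / (2 * n + 2) with hδd
  obtain ⟨m, hm0, hm⟩ := dio r n Λ hdet δ hδ
  set w : ℤ[X][X] := ∏ i, (u i ^ (m i).toNat * v i ^ (-m i).toNat) with hw
  obtain ⟨x, hxd⟩ : ∃ x : Fin n → BB T θ, ∀ j, x j = ev (TT T θ) (tt T θ j) w :=
    ⟨_, fun j => rfl⟩
  have hx : ∀ j, (x j : Ω) = (spr w T).eval (θ j) := by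
    intro j
    rw [hxd, coe_ev]
  have hxprod : ∀ j, x j = ∏ i, (y i j ^ (m i).toNat * z i j ^ (-m i).toNat) := by
    intro j
    rw [hxd, hw, map_prod]
    refine Finset.prod_congr rfl fun i _ => ?_
    rw [map_mul, map_pow, map_pow, hyd, hzd]
  have hsx : ∀ (t : ℕ) j, s t (x j) =
      ∏ i, (s t (y i j) ^ (m i).toNat * s t (z i j) ^ (-m i).toNat) := by
    intro t j
    rw [hxprod, map_prod]
    exact Finset.prod_congr rfl fun i _ => by rw [map_mul, map_pow, map_pow]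
  have hsx0 : ∀ (t : ℕ) j, s t (x j) ≠ 0 := by
    intro t j
    rw [hsx]
    exact Finset.prod_ne_zero_iff.2 fun i _ =>
      mul_ne_zero (pow_ne_zero _ (hsy0 t i j)) (pow_ne_zero _ (hsz0 t i j))
  have hlog : ∀ (t : ℕ) j, Real.log ‖s t (x j)‖ =
      ∑ i, (m i : ℝ) * Real.log ‖s t (y i j)‖ := by
    intro t j
    rw [hsx, norm_prod, Real.log_prod (fun i _ => norm_ne_zero_iff.2
      (mul_ne_zero (pow_ne_zero _ (hsy0 t i j)) (pow_ne_zero _ (hsz0 t i j))))]
    refine Finset.sum_congr rfl fun i _ => ?_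
    have h1 : Real.log ‖s t (z i j)‖ = -Real.log ‖s t (y i j)‖ := by
      have h2 := congrArg (fun c : ℂ => Real.log ‖c‖) (hsyz t i j)
      simp only [norm_mul, norm_one, Real.log_one] at h2
      rw [Real.log_mul (norm_ne_zero_iff.2 (hsy0 t i j)) (norm_ne_zero_iff.2 (hsz0 t i j))] at h2
      linarith
    have h3 : (m i : ℝ) = ((m i).toNat : ℝ) - ((-m i).toNat : ℝ) := by
      have h4 : m i = ((m i).toNat : ℤ) - ((-m i).toNat : ℤ) := by omega
      exact_mod_cast h4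
    rw [norm_mul, norm_pow, norm_pow, Real.log_mul (pow_ne_zero _ (norm_ne_zero_iff.2 (hsy0 t i j)))
      (pow_ne_zero _ (norm_ne_zero_iff.2 (hsz0 t i j))), Real.log_pow, Real.log_pow, h1, h3]
    ring
  have htend : ∀ j, Tendsto (fun t : ℕ => Real.log ‖s t (x j)‖ / Real.log (t : ℝ)) 𝒰
      (𝓝 (∑ i, (m i : ℝ) * Λ i j)) := by
    intro j
    have e1 : (fun t : ℕ => Real.log ‖s t (x j)‖ / Real.log (t : ℝ)) = fun t : ℕ =>
        ∑ i, (m i : ℝ) * (Real.log ‖s t (y i j)‖ / Real.log (t : ℝ)) := by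
      funext t
      rw [hlog, Finset.sum_div]
      exact Finset.sum_congr rfl fun i _ => mul_div_assoc _ _ _
    rw [e1]
    exact tendsto_finset_sum _ fun i _ => (hΛ i j).const_mul _
  have hbound : ∀ j, ∀ᶠ t in (𝒰 : Filter ℕ), ‖s t (x j)‖ ≤ (t : ℝ) ^ δ := by
    intro j
    have h1 : ∑ i, (m i : ℝ) * Λ i j < δ := (abs_lt.1 (hm j)).2
    filter_upwards [(htend j).eventually_lt_const h1, h𝒰 eventually_two,
      h𝒰 (eventually_ge_atTop 2)] with t h2 h3 h4
    have ht : (0 : ℝ) < t := by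
      have : 0 < t := by omega
      exact_mod_cast this
    rw [div_lt_iff₀ h3] at h2
    rw [Real.rpow_def_of_pos ht, ← Real.log_le_iff_le_exp (norm_pos_iff.2 (hsx0 t j)), mul_comm]
    exact h2.le
  have hs' : ∀ t : ℕ, s t ⟨T, Algebra.subset_adjoin (by simp)⟩ = t := by
    intro t
    rw [hs, Int.cast_natCast]
  have hδn : δ * n < 1 := by
    rw [hδd, one_div, inv_mul_lt_iff₀ (by positivity)]
    have : (0 : ℝ) ≤ n := Nat.cast_nonneg n
    linarith
  have halg := gro Ω T hT f w n θ hθ hf hfθ s hs' x hx 𝒰 h𝒰 δ hδ.le hδn hbound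
  apply hm0
  apply hind
  intro j
  have e1 : ∏ i, (spr (u i) T).eval (θ j) ^ m i = (x j : Ω) := by
    rw [hxprod]
    push_cast
    refine Finset.prod_congr rfl fun i _ => ?_
    have h1 : (z i j : Ω) = ((y i j : Ω))⁻¹ := eq_inv_of_mul_eq_one_right (hyzΩ i j)
    rw [← hy, h1, zpow_eq _ (left_ne_zero_of_mul_eq_one (hyzΩ i j))]
  rw [e1]
  exact halg j

end Pool.Agent.LPW.H15
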